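import Pool.Agent.LIR.Z1

/-!
`b_1^(2)(G) = cost(G) - 1` for every infinite finitely generated locally indicable group, and more
generally for every infinite finitely generated group in the smallest class of countable groups
which contains the locally indicable groups and is closed under subgroups, directed unions and
extensions with amenable quotient.
-/

namespace Pool.Agent.Results.MP_29b1c9_al.LocallyIndicable

open Pool.Agent.COST Pool.Agent.LIR

/-- Let `G` be an infinite group generated by `s_1, ..., s_d` which lies in the smallest class of
countable groups containing the locally indicable groups and closed under subgroups, local closure
and extensions with amenable quotient.  Then the cost of `G` is finite and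
`b_1^(2)(G) = cost(G) - 1`, where the first l2-Betti number is computed from the Cayley graph of
`(G, s)`. -/
theorem result (G : Type) [Group G] [Infinite G] (hG : IndClass G)
    (d : ℕ) (s : Fin d → G) (hs : Subgroup.closure (Set.range s) = ⊤) :
    groupCost G ≠ ⊤ ∧ Statement.bettiOne s = (groupCost G).toReal - 1 :=
  betti_eq_cost_of_ind hG s hs

end Pool.Agent.Results.MP_29b1c9_al.LocallyIndicable
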