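import Pool.Agent.FPP.Z3

/-!
Fixed price 1 for finitely generated groups acting on a product of two nonamenable graphs of
bounded degree with finite stabilisers and finite covolume.
-/

open scoped ENNReal

namespace Pool.Agent.Results.MP_29b1c9_al.ProductLattices

open Pool.Agent

/-- Let `Γ` be a group generated by `s_1, ..., s_d` which acts by automorphisms on two connected
graphs of bounded degree with positive Cheeger constant, such that the diagonal action on the
product of the vertex sets has finite stabilisers and finite covolume (some set `F` of pairs meets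
every orbit and the sum of `1 / |Stab|` over `F` is finite).  Then every standard action of `Γ`
has cost 1, `cost(Γ) = 1` and `b_1^(2)(Γ) = 0`, where the first l2-Betti number is computed
from the Cayley graph of `(Γ, s)`. -/
theorem result {Γ : Type} [Group Γ] {V₁ V₂ : Type} [MulAction Γ V₁] [MulAction Γ V₂]
    (G₁ : SimpleGraph V₁) (G₂ : SimpleGraph V₂) (h₁ : FPP.NonamGraph G₁) (h₂ : FPP.NonamGraph G₂)
    (a₁ : ∀ (g : Γ) (x y : V₁), G₁.Adj (g • x) (g • y) ↔ G₁.Adj x y)
    (a₂ : ∀ (g : Γ) (x y : V₂), G₂.Adj (g • x) (g • y) ↔ G₂.Adj x y)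
    (hst : ∀ ω : V₁ × V₂, Finite (MulAction.stabilizer Γ ω)) (F : Set (V₁ × V₂))
    (hF : ∀ ω : V₁ × V₂, ∃ g : Γ, g • ω ∈ F)
    (hfin : ∑' ω : F, (Nat.card (MulAction.stabilizer Γ (ω : V₁ × V₂)) : ℝ≥0∞)⁻¹ ≠ ⊤)
    {d : ℕ} (s : Fin d → Γ) (hs : Subgroup.closure (Set.range s) = ⊤) :
    (∀ α : COST.StdAction Γ, α.cost = 1) ∧ COST.groupCost Γ = 1 ∧
      COST.Statement.bettiOne s = 0 :=
  FPP.fixed_price G₁ G₂ h₁ h₂ a₁ a₂ hst F hF hfin s hs

end Pool.Agent.Results.MP_29b1c9_al.ProductLattices
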