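import Pool.Agent.COST.Main

/-!
Adding to a subgroup `H` of a countable locally indicable group a generator `x` which satisfies
some nontrivial relation over `H` does not increase the cost.
-/

namespace Pool.Agent.Results.MP_29b1c9_al.RelativeCost

open Pool.Agent.COST

/-- Let `G` be a countable locally indicable group generated by a subgroup `H` and an element
`x` such that the natural homomorphism from the free product of `H` and an infinite cyclic group
to `G` (the identity on `H`, the generator going to `x`) is not injective.  Then
`cost(G) ≤ cost(H)`. -/
theorem result (G : Type) [Group G] [Countable G] (hG : LocallyIndicable G)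
    (H : Subgroup G) (x : G) (hgen : H ⊔ Subgroup.zpowers x = ⊤)
    (hnf : ¬ Function.Injective
      (Monoid.Coprod.lift H.subtype (zpowersHom G x) : Monoid.Coprod H (Multiplicative ℤ) →* G)) :
    groupCost G ≤ groupCost H :=
  theoremC G hG H x hgen hnf

end Pool.Agent.Results.MP_29b1c9_al.RelativeCost
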